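import Pool.Agent.E8helper61.EF.Stm3
import Pool.Agent.E8helper64.EF.Small

/-! Project EF, piece SMALLI. -/

set_option autoImplicit false

open Finset

namespace Pool.Agent.E8helper88.EF

open Pool.Agent.E8helper61.EF

theorem smallI : SmallIStatement := by
  classical
  intro n k d i A hk hd hi hki hD hS hb
  obtain ⟨r, hr⟩ : ∃ r, r = d - k * i := ⟨_, rfl⟩
  have hnr : n - d + k * i = n - r := by omega
  have h2i : 2 * i ≤ k * i := Nat.mul_le_mul_right i hk
  rw [hnr]
  rw [← hr] at hb ⊢
  have hrt : r + i < n := by omega
  have hle : ∀ B ∈ A, (far r B).card ≤ i := by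
    intro B hB
    by_contra hcon
    push Not at hcon
    obtain ⟨X, hX, hXc⟩ := exists_subset_card_eq (s := far r B) (n := i + 1) (by omega)
    apply hb
    apply Pool.Agent.E8helper64.EF.to_blk hrt hS (hD B hB X (hX.trans (filter_subset _ _))) hXc
    intro x hx
    exact (mem_filter.mp (hX hx)).2
  set L : Finset (Fin n) := univ.filter (fun x => x.val < r) with hL
  set H : Finset (Fin n) := univ.filter (fun x => r ≤ x.val) with hH
  have hLc : L.card ≤ r := by
    rw [← card_image_of_injective L Fin.val_injective]
    calc (L.image Fin.val).card ≤ (range r).card := by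
          apply card_le_card
          intro x hx
          rw [mem_image] at hx
          obtain ⟨y, hy, rfl⟩ := hx
          rw [mem_range]
          exact (mem_filter.mp hy).2
      _ = r := card_range r
  have hHc : H.card ≤ n - r := by
    rw [← card_image_of_injective H Fin.val_injective]
    calc (H.image Fin.val).card ≤ (Ico r n).card := by
          apply card_le_card
          intro x hx
          rw [mem_image] at hx
          obtain ⟨y, hy, rfl⟩ := hx
          rw [mem_Ico]
          exact ⟨(mem_filter.mp hy).2, y.2⟩
      _ = n - r := Nat.card_Ico r n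
  have hcard : A.card ≤ (L.powerset ×ˢ (range (i + 1)).biUnion (fun j => powersetCard j H)).card := by
    apply card_le_card_of_injOn (fun B => (near r B, far r B))
    · intro B hB
      rw [mem_coe, mem_product, mem_powerset, mem_biUnion]
      refine ⟨filter_subset_filter _ (subset_univ _), (far r B).card, ?_, ?_⟩
      · rw [mem_range]
        have := hle B hB
        omega
      · rw [mem_powersetCard]
        exact ⟨filter_subset_filter _ (subset_univ _), rfl⟩
    · intro B _ C _ hBC
      simp only [Prod.mk.injEq] at hBC
      obtain ⟨h1, h2⟩ := hBC
      ext x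
      rcases lt_or_ge x.val r with hx | hx
      · have h3 : x ∈ near r B ↔ x ∈ near r C := by rw [h1]
        simpa [near, hx] using h3
      · have h3 : x ∈ far r B ↔ x ∈ far r C := by rw [h2]
        simpa [far, hx] using h3
  refine hcard.trans ?_
  rw [card_product, card_powerset]
  apply Nat.mul_le_mul (Nat.pow_le_pow_right (by norm_num) hLc)
  refine card_biUnion_le.trans ?_
  apply sum_le_sum
  intro j _
  rw [card_powersetCard]
  exact Nat.choose_le_choose j hHc

end Pool.Agent.E8helper88.EF
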